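import Pool.Agent.H459.AV.Stm3

set_option linter.all false
set_option autoImplicit false

/-! # AV3-UNIT: units of a number field with prescribed absolute values up to a constant -/

open Polynomial IsDedekindDomain NumberField
open scoped Classical


namespace Pool.Agent.H353.AV3
open NumberField.Units NumberField.Units.dirichletUnitTheorem in
/-- approximation by the lattice of the units -/
theorem exists_near (F : Type) [Field F] [NumberField F] : ∃ R : ℝ, 0 ≤ R ∧
    ∀ x : logSpace F, ∃ u : (𝓞 F)ˣ, ∀ w : {w : InfinitePlace F // w ≠ w₀},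
      |x w - w.val.mult * Real.log (w.val ((u : 𝓞 F) : F))| ≤ R := by
  classical
  let b := (basisUnitLattice F).ofZLatticeBasis ℝ (unitLattice F)
  refine ⟨∑ i, ‖b i‖, Finset.sum_nonneg fun i _ => norm_nonneg _, fun x => ?_⟩
  have h1 : ((ZSpan.floor b x : Submodule.span ℤ (Set.range b)) : logSpace F) ∈ unitLattice F := by
    have h2 : Submodule.span ℤ (Set.range b) = unitLattice F :=
      (basisUnitLattice F).ofZLatticeBasis_span ℝ
    rw [← h2]
    exact (ZSpan.floor b x).2
  obtain ⟨u, -, hu⟩ := h1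
  refine ⟨u.toMul, fun w => ?_⟩
  have h3 := ZSpan.norm_fract_le b x
  rw [ZSpan.fract_apply] at h3
  have h4 := (norm_le_pi_norm (x - (ZSpan.floor b x : logSpace F)) w).trans h3
  rw [Real.norm_eq_abs, Pi.sub_apply, ← hu] at h4
  exact h4

theorem mult_ge_one {F : Type} [Field F] (w : InfinitePlace F) : (1 : ℝ) ≤ w.mult := by
  exact_mod_cast w.mult_pos

theorem unit : Pool.Agent.H459.AV.S_UNIT := by
  intro F _ _
  classical
  obtain ⟨R, hR, hnear⟩ := exists_near F
  set n : ℝ := (Fintype.card (InfinitePlace F) : ℝ) with hn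
  have hn0 : 0 ≤ n := Nat.cast_nonneg _
  refine ⟨Real.exp ((n + 1) * R), Real.one_le_exp (by positivity), fun t ht hprod => ?_⟩
  obtain ⟨u, hu⟩ := hnear fun w => w.val.mult * Real.log (t w.val)
  refine ⟨u, ?_⟩
  have hupos : ∀ v : InfinitePlace F, 0 < v ((u : 𝓞 F) : F) := fun v => Units.pos_at_place u v
  -- the sums over all places vanish
  have hs1 : ∑ v : InfinitePlace F, (v.mult : ℝ) * Real.log (v ((u : 𝓞 F) : F)) = 0 :=
    Units.sum_mult_mul_log u
  have hs2 : ∑ v : InfinitePlace F, (v.mult : ℝ) * Real.log (t v) = 0 := by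
    have h1 := congrArg Real.log hprod
    rw [Real.log_one, Real.log_prod (fun v _ => (pow_pos (ht v) _).ne')] at h1
    rw [← h1]
    refine Finset.sum_congr rfl fun v _ => ?_
    rw [Real.log_pow]
  have hs3 : ∑ v : InfinitePlace F,
      ((v.mult : ℝ) * Real.log (t v) - v.mult * Real.log (v ((u : 𝓞 F) : F))) = 0 := by
    rw [Finset.sum_sub_distrib, hs1, hs2, sub_zero]
  set g : InfinitePlace F → ℝ := fun v =>
    (v.mult : ℝ) * Real.log (t v) - v.mult * Real.log (v ((u : 𝓞 F) : F)) with hg
  have hother : ∀ v : InfinitePlace F, v ≠ NumberField.Units.dirichletUnitTheorem.w₀ →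
      |g v| ≤ R := fun v hv => hu ⟨v, hv⟩
  have hgw : |g NumberField.Units.dirichletUnitTheorem.w₀| ≤ n * R := by
    have h1 : ∑ v : InfinitePlace F, g v = 0 := hs3
    rw [← Finset.add_sum_erase _ _ (Finset.mem_univ NumberField.Units.dirichletUnitTheorem.w₀)]
      at h1
    rw [eq_neg_of_add_eq_zero_left h1, abs_neg]
    refine (Finset.abs_sum_le_sum_abs _ _).trans ?_
    refine (Finset.sum_le_card_nsmul _ _ R fun v hv => hother v (Finset.ne_of_mem_erase hv)).trans ?_
    rw [nsmul_eq_mul]
    refine mul_le_mul_of_nonneg_right ?_ hR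
    rw [hn]
    exact_mod_cast Finset.card_le_univ _
  have hall : ∀ v : InfinitePlace F, |g v| ≤ (n + 1) * R := by
    intro v
    by_cases hv : v = NumberField.Units.dirichletUnitTheorem.w₀
    · rw [hv]
      exact hgw.trans (by nlinarith)
    · exact (hother v hv).trans (by nlinarith)
  have hlog : ∀ v : InfinitePlace F,
      |Real.log (t v) - Real.log (v ((u : 𝓞 F) : F))| ≤ (n + 1) * R := by
    intro v
    have h1 : g v = (v.mult : ℝ) * (Real.log (t v) - Real.log (v ((u : 𝓞 F) : F))) := by
      rw [hg]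
      ring
    have h2 := hall v
    rw [h1, abs_mul, Nat.abs_cast] at h2
    refine le_trans ?_ h2
    exact le_mul_of_one_le_left (abs_nonneg _) (mult_ge_one v)
  intro v
  have h1 := abs_le.1 (hlog v)
  constructor
  · rw [← Real.exp_log (hupos v), ← Real.exp_log (ht v), ← Real.exp_add]
    refine Real.exp_le_exp.2 ?_
    linarith [h1.1]
  · rw [← Real.exp_log (hupos v), ← Real.exp_log (ht v), ← Real.exp_add]
    refine Real.exp_le_exp.2 ?_
    linarith [h1.2]
end Pool.Agent.H353.AV3
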